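import Pool.Agent.H301X.BG.Stmts

set_option autoImplicit false

/-!
Task BallCmp of project H301-BG: comparison of the defining functions.
-/

open MeasureTheory Topology Filter Set Metric
open scoped ENNReal NNReal ContDiff

namespace Pool.Agent.H301X.BG

theorem taskBallCmp : TaskBallCmp := by
  intro n Ω U r p c ν ρ hU hpU hΩ hr hrp hν hball
  have hstrict : HasStrictFDerivAt r (fderiv ℝ r p) p :=
    hr.hasStrictFDerivAt (by norm_num)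
  have hηpos : (0 : ℝ) < 1 / (4 * (‖ν‖ + 1)) := by positivity
  obtain ⟨η, hη⟩ : ∃ η : ℝ≥0, (η : ℝ) = 1 / (4 * (‖ν‖ + 1)) := ⟨⟨_, hηpos.le⟩, rfl⟩
  have hη0 : 0 < η := by
    rw [← NNReal.coe_pos, hη]; exact hηpos
  have hην : (η : ℝ) * ‖ν‖ ≤ 1 / 4 := by
    rw [hη, div_mul_eq_mul_div, one_mul, div_le_iff₀ (by positivity)]
    linarith [norm_nonneg ν]
  obtain ⟨s, hs, happ⟩ := hstrict.approximates_deriv_on_nhds (Or.inr hη0)
  obtain ⟨δ, hδ0, hδ⟩ := Metric.mem_nhds_iff.1 (Filter.inter_mem hs (hU.mem_nhds hpU))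
  obtain ⟨Lp, hLp⟩ : ∃ Lp : ℝ, Lp = ‖fderiv ℝ r p‖ + η := ⟨_, rfl⟩
  have hLp0 : 0 ≤ Lp := by rw [hLp]; positivity
  have hden : 0 < 1 + 2 * Lp * ‖ν‖ := by positivity
  have hδ'0 : 0 < min δ 1 := lt_min hδ0 one_pos
  refine ⟨2 * ((n : ℝ) * (‖ν‖ * (2 * (‖p - c‖ + 1) + 1))) + 1, by positivity,
    min 1 (min δ 1 / (1 + 2 * Lp * ‖ν‖)), lt_min one_pos (by positivity), ?_⟩
  intro q hq hq2
  have hq1 : ‖q - p‖ < 1 := by
    rw [← dist_eq_norm]; exact lt_of_lt_of_le hq (min_le_left _ _)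
  have hq3 : ‖q - p‖ * (1 + 2 * Lp * ‖ν‖) < min δ 1 := by
    rw [← dist_eq_norm, ← lt_div_iff₀ hden]
    exact lt_of_lt_of_le hq (min_le_right _ _)
  have hq4 : ‖q - p‖ ≤ ‖q - p‖ * (1 + 2 * Lp * ‖ν‖) := by
    apply le_mul_of_one_le_right (norm_nonneg _)
    have : 0 ≤ 2 * Lp * ‖ν‖ := by positivity
    linarith
  have hqball : q ∈ ball p δ := by
    rw [mem_ball, dist_eq_norm]
    exact lt_of_le_of_lt hq4 (lt_of_lt_of_le hq3 (min_le_left _ _))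
  have hpball : p ∈ ball p δ := mem_ball_self hδ0
  have hqU : q ∈ U := (hδ hqball).2
  have hqΩ : q ∈ Ω := by
    apply hball
    show ∑ i, ‖q i - c i‖ ^ 2 < ρ ^ 2
    unfold r2 at hq2
    linarith
  have hrq : r q < 0 := by
    have : q ∈ Ω ∩ U := ⟨hqΩ, hqU⟩
    rw [hΩ] at this
    exact this.2
  obtain ⟨t, ht⟩ : ∃ t : ℝ, t = 2 * (- r q) := ⟨_, rfl⟩
  have ht0 : 0 < t := by rw [ht]; linarith
  -- bound of r q
  have hrq1 : - r q ≤ Lp * ‖q - p‖ := by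
    have h1 := happ _ (hδ hqball).1 _ (hδ hpball).1
    rw [hrp, sub_zero, Real.norm_eq_abs] at h1
    have h2 : |fderiv ℝ r p (q - p)| ≤ ‖fderiv ℝ r p‖ * ‖q - p‖ := by
      rw [← Real.norm_eq_abs]; exact ContinuousLinearMap.le_opNorm _ _
    have h3 := abs_le.1 h1
    have h4 := abs_le.1 h2
    rw [hLp, add_mul]
    linarith [h3.1, h4.1]
  have htν : t * ‖ν‖ ≤ ‖q - p‖ * (2 * Lp * ‖ν‖) := by
    have h1 : t ≤ 2 * (Lp * ‖q - p‖) := by rw [ht]; linarith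
    calc t * ‖ν‖ ≤ 2 * (Lp * ‖q - p‖) * ‖ν‖ := mul_le_mul_of_nonneg_right h1 (norm_nonneg _)
      _ = ‖q - p‖ * (2 * Lp * ‖ν‖) := by ring
  have htν1 : t * ‖ν‖ ≤ 1 := by
    have h1 : ‖q - p‖ * (2 * Lp * ‖ν‖) ≤ ‖q - p‖ * (1 + 2 * Lp * ‖ν‖) :=
      mul_le_mul_of_nonneg_left (by linarith) (norm_nonneg _)
    exact htν.trans (h1.trans (hq3.le.trans (min_le_right _ _)))
  have hq'ball : q + t • ν ∈ ball p δ := by
    rw [mem_ball, dist_eq_norm]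
    have h1 : q + t • ν - p = (q - p) + t • ν := by abel
    rw [h1]
    calc ‖(q - p) + t • ν‖ ≤ ‖q - p‖ + ‖t • ν‖ := norm_add_le _ _
      _ = ‖q - p‖ + t * ‖ν‖ := by rw [norm_smul, Real.norm_of_nonneg ht0.le]
      _ ≤ ‖q - p‖ + ‖q - p‖ * (2 * Lp * ‖ν‖) := by linarith
      _ = ‖q - p‖ * (1 + 2 * Lp * ‖ν‖) := by ring
      _ < min δ 1 := hq3
      _ ≤ δ := min_le_left _ _
  -- r is positive at the shifted point
  have hpos : 0 < r (q + t • ν) := by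
    have h1 := happ _ (hδ hq'ball).1 _ (hδ hqball).1
    rw [add_sub_cancel_left, map_smul, hν, smul_eq_mul, mul_one, norm_smul,
      Real.norm_of_nonneg ht0.le, Real.norm_eq_abs] at h1
    have h2 := (abs_le.1 h1).1
    have h3 : (η : ℝ) * (t * ‖ν‖) ≤ t * (1 / 4) := by
      calc (η : ℝ) * (t * ‖ν‖) = t * ((η : ℝ) * ‖ν‖) := by ring
        _ ≤ t * (1 / 4) := mul_le_mul_of_nonneg_left hην ht0.le
    linarith
  have hq'Ω : q + t • ν ∉ Ω := by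
    intro hmem
    have h1 : q + t • ν ∈ Ω ∩ U := ⟨hmem, (hδ hq'ball).2⟩
    rw [hΩ] at h1
    exact absurd h1.2 (not_lt.2 hpos.le)
  have hr2' : ρ ^ 2 ≤ ∑ i, ‖(q + t • ν) i - c i‖ ^ 2 := by
    by_contra hlt
    rw [not_le] at hlt
    exact hq'Ω (hball hlt)
  -- comparison of the sums
  have hsum : ∑ i, ‖(q + t • ν) i - c i‖ ^ 2 ≤
      ∑ i, (‖q i - c i‖ ^ 2 + t * (‖ν‖ * (2 * (‖p - c‖ + 1) + 1))) := by
    apply Finset.sum_le_sum
    intro i _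
    have h1 : (q + t • ν) i - c i = (q i - c i) + t • ν i := by
      rw [Pi.add_apply, Pi.smul_apply]; abel
    have h2 : ‖(q i - c i) + t • ν i‖ ≤ ‖q i - c i‖ + t * ‖ν‖ := by
      refine (norm_add_le _ _).trans ?_
      rw [norm_smul, Real.norm_of_nonneg ht0.le]
      have := norm_le_pi_norm ν i
      have := mul_le_mul_of_nonneg_left this ht0.le
      linarith
    have h3 : ‖q i - c i‖ ≤ ‖p - c‖ + 1 := by
      have h4 : ‖q i - c i‖ ≤ ‖q - c‖ := norm_le_pi_norm (q - c) i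
      have h5 : ‖q - c‖ ≤ ‖q - p‖ + ‖p - c‖ := by
        have h6 : q - c = (q - p) + (p - c) := by abel
        rw [h6]; exact norm_add_le _ _
      linarith
    have h0 : 0 ≤ t * ‖ν‖ := by positivity
    rw [h1]
    calc ‖(q i - c i) + t • ν i‖ ^ 2 ≤ (‖q i - c i‖ + t * ‖ν‖) ^ 2 :=
          pow_le_pow_left₀ (norm_nonneg _) h2 2
      _ = ‖q i - c i‖ ^ 2 + (t * ‖ν‖) * (2 * ‖q i - c i‖ + t * ‖ν‖) := by ring
      _ ≤ ‖q i - c i‖ ^ 2 + (t * ‖ν‖) * (2 * (‖p - c‖ + 1) + 1) := by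
          have := mul_le_mul_of_nonneg_left (a := t * ‖ν‖)
            (show 2 * ‖q i - c i‖ + t * ‖ν‖ ≤ 2 * (‖p - c‖ + 1) + 1 by linarith) h0
          linarith
      _ = _ := by ring
  rw [Finset.sum_add_distrib, Finset.sum_const, Finset.card_univ, Fintype.card_fin,
    nsmul_eq_mul] at hsum
  have hfin : - r2 c ρ q ≤ (n : ℝ) * (t * (‖ν‖ * (2 * (‖p - c‖ + 1) + 1))) := by
    unfold r2
    linarith
  have hfin2 : (n : ℝ) * (t * (‖ν‖ * (2 * (‖p - c‖ + 1) + 1))) =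
      2 * ((n : ℝ) * (‖ν‖ * (2 * (‖p - c‖ + 1) + 1))) * (- r q) := by
    rw [ht]; ring
  rw [hfin2] at hfin
  rw [add_mul]
  linarith

end Pool.Agent.H301X.BG
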