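import Pool.Agent.H487R3.Cau.Stmts

/-!
Task T6 (`TaskRect`) of project H487-CAUCHY. (helper991)
-/

set_option autoImplicit false

open MeasureTheory Filter Set Topology
open scoped ENNReal NNReal

namespace Pool.Agent.H991R3.CauRect

open Pool.Agent.H487R3.Cau

/-- fundamental theorem of calculus for locally Lipschitz complex valued functions -/
theorem ftc (H h : ℝ → ℂ) (hL : LocallyLipschitz H) (hd : ∀ᵐ t : ℝ, HasDerivAt H (h t) t)
    (a b : ℝ) : ∫ t in a..b, h t = H b - H a := by
  have hK : ∃ K, LipschitzOnWith K H (uIcc a b) := by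
    apply LocallyLipschitzOn.exists_lipschitzOnWith_of_compact isCompact_uIcc
    intro x _
    obtain ⟨K, t, ht, h⟩ := hL x
    exact ⟨K, t, mem_nhdsWithin_of_mem_nhds ht, h⟩
  obtain ⟨K, hK⟩ := hK
  have hre : LipschitzOnWith K (fun t => (H t).re) (uIcc a b) := by
    intro x hx y hy
    refine le_trans ?_ (hK hx hy)
    rw [edist_dist, edist_dist]
    apply ENNReal.ofReal_le_ofReal
    rw [Real.dist_eq, dist_eq_norm, ← Complex.sub_re]
    exact Complex.abs_re_le_norm _
  have him : LipschitzOnWith K (fun t => (H t).im) (uIcc a b) := by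
    intro x hx y hy
    refine le_trans ?_ (hK hx hy)
    rw [edist_dist, edist_dist]
    apply ENNReal.ofReal_le_ofReal
    rw [Real.dist_eq, dist_eq_norm, ← Complex.sub_im]
    exact Complex.abs_im_le_norm _
  have hre' := hre.absolutelyContinuousOnInterval
  have him' := him.absolutelyContinuousOnInterval
  have dre : ∀ᵐ t : ℝ, deriv (fun t => (H t).re) t = (h t).re := by
    filter_upwards [hd] with t ht
    exact (Complex.reCLM.hasFDerivAt.comp_hasDerivAt t ht).deriv
  have dim : ∀ᵐ t : ℝ, deriv (fun t => (H t).im) t = (h t).im := by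
    filter_upwards [hd] with t ht
    exact (Complex.imCLM.hasFDerivAt.comp_hasDerivAt t ht).deriv
  have ire : IntervalIntegrable (fun t => (h t).re) volume a b := by
    apply hre'.intervalIntegrable_deriv.congr_ae
    exact ae_restrict_of_ae (by filter_upwards [dre] with t ht using ht)
  have iim : IntervalIntegrable (fun t => (h t).im) volume a b := by
    apply him'.intervalIntegrable_deriv.congr_ae
    exact ae_restrict_of_ae (by filter_upwards [dim] with t ht using ht)
  have e1 : ∫ t in a..b, (h t).re = (H b).re - (H a).re := by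
    rw [← hre'.integral_deriv_eq_sub]
    apply intervalIntegral.integral_congr_ae
    filter_upwards [dre] with t ht _ using ht.symm
  have e2 : ∫ t in a..b, (h t).im = (H b).im - (H a).im := by
    rw [← him'.integral_deriv_eq_sub]
    apply intervalIntegral.integral_congr_ae
    filter_upwards [dim] with t ht _ using ht.symm
  have e3 : (fun t => h t) = fun t => (((h t).re : ℝ) : ℂ) + Complex.I * (((h t).im : ℝ) : ℂ) := by
    funext t
    rw [mul_comm]
    exact (Complex.re_add_im (h t)).symm
  have ire2 : IntervalIntegrable (fun t => (((h t).re : ℝ) : ℂ)) volume a b :=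
    ⟨Integrable.ofReal ire.1, Integrable.ofReal ire.2⟩
  have iim2 : IntervalIntegrable (fun t => (((h t).im : ℝ) : ℂ)) volume a b :=
    ⟨Integrable.ofReal iim.1, Integrable.ofReal iim.2⟩
  rw [e3, intervalIntegral.integral_add ire2 (iim2.const_mul _),
    intervalIntegral.integral_const_mul, intervalIntegral.integral_ofReal,
    intervalIntegral.integral_ofReal, e1, e2]
  apply Complex.ext <;> simp

theorem comp_lip (γ : ℝ → ℂ) (hγ : LocallyLipschitz γ) (F F' : ℂ → ℂ)
    (hF : ∀ t, HasStrictDerivAt F (F' (γ t)) (γ t)) : LocallyLipschitz (fun t => F (γ t)) := by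
  intro t
  obtain ⟨K1, s1, hs1, h1⟩ := (hF t).hasStrictFDerivAt.exists_lipschitzOnWith
  obtain ⟨K2, s2, hs2, h2⟩ := hγ t
  refine ⟨K1 * K2, s2 ∩ γ ⁻¹' s1, inter_mem hs2 (hγ.continuous.continuousAt hs1), ?_⟩
  exact h1.comp (h2.mono inter_subset_left) (fun x hx => hx.2)

theorem comp_deriv (γ : ℝ → ℂ) (F F' : ℂ → ℂ) (t : ℝ) (g : ℂ) (hg : HasDerivAt γ g t)
    (hF : HasStrictDerivAt F (F' (γ t)) (γ t)) :
    HasDerivAt (fun t => F (γ t)) (g * F' (γ t)) t := by
  have := hF.hasDerivAt.scomp t hg
  simpa [smul_eq_mul, Function.comp_def] using this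

/-- the domain -/
def Dom (z : ℂ) : Prop := 0 < z.im ∨ z.re ≠ 0

theorem Dom.slit {z : ℂ} (h : Dom z) : -Complex.I * z ∈ Complex.slitPlane := by
  rw [Complex.mem_slitPlane_iff]
  rcases h with h | h
  · left; simpa using h
  · right; simpa using h

theorem Dom.ne {z : ℂ} (h : Dom z) : z ≠ 0 := by
  rintro rfl
  rcases h with h | h <;> simp at h

theorem lg_strict {z : ℂ} (h : Dom z) : HasStrictDerivAt Lg z⁻¹ z := by
  have h1 : HasStrictDerivAt (fun z : ℂ => -Complex.I * z) (-Complex.I * 1) z :=
    (hasStrictDerivAt_id z).const_mul (-Complex.I)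
  have h2 := (Complex.hasStrictDerivAt_log h.slit).comp z h1
  have h3 : (-Complex.I * z)⁻¹ * (-Complex.I * 1) = z⁻¹ := by
    have hz := h.ne
    have hI := Complex.I_ne_zero
    field_simp
  rw [h3] at h2
  exact h2

noncomputable def Psi (z : ℂ) : ℂ := z * Lg z - z

theorem psi_strict {z : ℂ} (h : Dom z) : HasStrictDerivAt Psi (Lg z) z := by
  have h1 := ((hasStrictDerivAt_id z).mul (lg_strict h)).sub (hasStrictDerivAt_id z)
  have h2 : 1 * Lg z + id z * z⁻¹ - 1 = Lg z := by
    rw [one_mul, id, mul_inv_cancel₀ h.ne]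
    ring
  rw [h2] at h1
  exact h1

theorem dom (a : ℝ → ℂ) (ha : LipschitzWith (1 / 10) a) (δ : ℝ) (hδ : 0 < δ) (x y : ℝ) :
    Dom (G a y - G a x + δ * Complex.I) := by
  by_cases hxy : x = y
  · left
    subst hxy
    simpa using hδ
  · right
    have h1 : ‖a y - a x‖ ≤ 1 / 10 * |y - x| := by
      have := ha.dist_le_mul y x
      rw [dist_eq_norm, Real.dist_eq] at this
      simpa using this
    have h2 : |(a y - a x).re| ≤ 1 / 10 * |y - x| := (Complex.abs_re_le_norm _).trans h1
    have h3 : (G a y - G a x + δ * Complex.I).re = (y - x) + (a y - a x).re := by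
      unfold G
      simp
      ring
    rw [h3]
    intro h4
    have h5 : (a y - a x).re = -(y - x) := by linarith
    rw [h5, abs_neg] at h2
    have h6 : 0 < |y - x| := abs_pos.mpr (sub_ne_zero.mpr (fun h => hxy h.symm))
    linarith

theorem locLip_G (a : ℝ → ℂ) (ha : LipschitzWith (1 / 10) a) : LocallyLipschitz (G a) := by
  have h1 : LipschitzWith 1 (fun s : ℝ => (s : ℂ)) := by
    apply LipschitzWith.of_dist_le_mul
    intro x y
    rw [dist_eq_norm, dist_eq_norm, ← Complex.ofReal_sub, Complex.norm_real]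
    simp
  exact (h1.add ha).locallyLipschitz

theorem rect_ok : TaskRect := by
  intro a ha δ hδ x₁ x₂ y₁ y₂ hx hy
  have hG := locLip_G a ha
  have hda : ∀ᵐ t : ℝ, HasDerivAt (G a) (1 + deriv a t) t := by
    filter_upwards [ha.ae_differentiableAt_real] with t ht
    have h1 : HasDerivAt (fun s : ℝ => (s : ℂ)) 1 t := Complex.ofRealCLM.hasDerivAt
    exact h1.add ht.hasDerivAt
  -- inner integral
  have inner : ∀ x : ℝ, ∫ y in Ico y₁ y₂, (1 + deriv a x) * (1 + deriv a y) * K a δ x y =
      (1 + deriv a x) * (Lg (G a y₂ - G a x + δ * Complex.I) -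
        Lg (G a y₁ - G a x + δ * Complex.I)) := by
    intro x
    rw [integral_Ico_eq_integral_Ioc, ← intervalIntegral.integral_of_le hy]
    have e1 : ∀ y : ℝ, (1 + deriv a x) * (1 + deriv a y) * K a δ x y =
        (1 + deriv a x) * ((1 + deriv a y) * (G a y - G a x + δ * Complex.I)⁻¹) := by
      intro y
      rw [K, mul_assoc]
    simp_rw [e1]
    rw [intervalIntegral.integral_const_mul]
    congr 1
    apply ftc (fun y => Lg (G a y - G a x + δ * Complex.I))
    · apply comp_lip (fun y => G a y - G a x + δ * Complex.I) _ Lg (fun z => z⁻¹)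
        (fun y => lg_strict (dom a ha δ hδ x y))
      intro t
      obtain ⟨K1, s, hs, h⟩ := hG t
      refine ⟨K1, s, hs, ?_⟩
      intro u hu v hv
      have := h hu hv
      simpa [edist_dist, dist_eq_norm] using this
    · filter_upwards [hda] with t ht
      have h1 : HasDerivAt (fun y => G a y - G a x + δ * Complex.I) (1 + deriv a t) t := by
        have := (ht.sub_const (G a x)).add_const (δ * Complex.I : ℂ)
        exact this
      exact comp_deriv _ Lg (fun z => z⁻¹) t _ h1 (lg_strict (dom a ha δ hδ x t))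
  simp_rw [inner]
  rw [integral_Ico_eq_integral_Ioc, ← intervalIntegral.integral_of_le hx]
  have hlip : ∀ y : ℝ, LocallyLipschitz (fun x => G a y - G a x + δ * Complex.I) := by
    intro y t
    obtain ⟨K1, s, hs, h⟩ := hG t
    refine ⟨K1, s, hs, ?_⟩
    intro u hu v hv
    have := h hv hu
    rw [edist_comm v u] at this
    simpa [edist_dist, dist_eq_norm, norm_sub_rev] using this
  have hPs : ∀ y : ℝ, LocallyLipschitz (fun x => Psi (G a y - G a x + δ * Complex.I)) := by
    intro y
    exact comp_lip (fun x => G a y - G a x + δ * Complex.I) (hlip y) Psi Lg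
      (fun x => psi_strict (dom a ha δ hδ x y))
  have hH : LocallyLipschitz (fun x => Psi (G a y₁ - G a x + δ * Complex.I) -
      Psi (G a y₂ - G a x + δ * Complex.I)) := (hPs y₁).sub (hPs y₂)
  have hd : ∀ᵐ x : ℝ, HasDerivAt (fun x => Psi (G a y₁ - G a x + δ * Complex.I) -
      Psi (G a y₂ - G a x + δ * Complex.I))
      ((1 + deriv a x) * (Lg (G a y₂ - G a x + δ * Complex.I) -
        Lg (G a y₁ - G a x + δ * Complex.I))) x := by
    filter_upwards [hda] with t ht
    have h1 : ∀ y : ℝ, HasDerivAt (fun x => G a y - G a x + δ * Complex.I)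
        (-(1 + deriv a t)) t := by
      intro y
      have := (ht.const_sub (G a y)).add_const (δ * Complex.I : ℂ)
      exact this
    have h2 := comp_deriv _ Psi Lg t _ (h1 y₁) (psi_strict (dom a ha δ hδ t y₁))
    have h3 := comp_deriv _ Psi Lg t _ (h1 y₂) (psi_strict (dom a ha δ hδ t y₂))
    have h4 := h2.sub h3
    have h5 : (1 + deriv a t) * (Lg (G a y₂ - G a t + δ * Complex.I) -
        Lg (G a y₁ - G a t + δ * Complex.I)) =
        -(1 + deriv a t) * Lg (G a y₁ - G a t + δ * Complex.I) -
        -(1 + deriv a t) * Lg (G a y₂ - G a t + δ * Complex.I) := by ring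
    rw [h5]
    exact h4
  rw [ftc _ _ hH hd x₁ x₂]
  unfold Psi P Phi
  ring

end Pool.Agent.H991R3.CauRect
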