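import Pool.Agent.Helper386.D5V.Helper386_FF_Div
import Pool.Agent.H639R3.Curve

/-!
Closed points (valuation rings) are the same as places (normalised valuations).
(helper991, for the ZP-PROJECT of helper680)
-/

set_option autoImplicit false

open FF Pool.Agent.H639R3 IsDedekindDomain

namespace Pool.Agent.H991R3.ZPBridge

variable {k K : Type} [Field k] [Field K] [Algebra k K]

theorem isFF_of_isCurve (h : IsCurve k K) : IsFF k K := by
  obtain ⟨⟨s, hs⟩, htr, -⟩ := h
  exact ⟨IntermediateField.fg_top_iff.mp ⟨s, hs⟩, htr⟩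

theorem O_ne_top (P : Place k K) : P.O ≠ ⊤ := by
  intro h
  obtain ⟨t, ht0, ht⟩ := P.surj
  have h1 : t⁻¹ ∈ P.O := by rw [h]; trivial
  have h2 : P.Reg t⁻¹ := h1
  rw [P.reg_iff (inv_ne_zero ht0), P.ord_inv, ht] at h2
  omega

/-- the closed point of a place -/
def toCP (P : Place k K) : ClosedPoint k K where
  ring := P.O
  const_mem := P.reg_const
  ne_top := O_ne_top P

theorem toCP_inj : Function.Injective (toCP (k := k) (K := K)) := by
  intro P Q h
  have h1 : P.O = Q.O := congrArg ClosedPoint.ring h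
  apply Place.eq_of_le
  intro f hf0 hf
  have h2 : f ∈ P.O := Or.inr hf
  rw [h1] at h2
  exact (Q.reg_iff hf0).1 h2

theorem toCP_surj [Finite k] (hF : IsCurve k K) : Function.Surjective (toCP (k := k) (K := K)) := by
  intro x
  obtain ⟨t, ht, hfin, hsep⟩ := exists_separating hF
  -- reduce to `t ∈ x.ring`
  obtain ⟨u, hu, hufin, husep, hux⟩ : ∃ u : K, Transcendental k u ∧
      FiniteDimensional (IntermediateField.adjoin k {u}) K ∧
      Algebra.IsSeparable (IntermediateField.adjoin k {u}) K ∧ u ∈ x.ring := by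
    rcases x.ring.mem_or_inv_mem t with h | h
    · exact ⟨t, ht, hfin, hsep, h⟩
    · refine ⟨t⁻¹, ?_, ?_, ?_, h⟩
      · intro h1
        apply ht
        have h2 := h1.inv
        rwa [inv_inv] at h2
      · rw [adjoin_simple_inv' t]; exact hfin
      · rw [adjoin_simple_inv' t]; exact hsep
  obtain ⟨A, hD, hFr, hft, huA, hnf, hA⟩ := exists_affine u hu hufin husep
  have hAx : ∀ a : A, algebraMap A K a ∈ x.ring := fun a => hA x.ring x.const_mem hux a a.2
  let v : HeightOneSpectrum A :=
    ⟨cent x.ring hAx, cent_isPrime _ _, cent_ne_bot _ _ x.ne_top⟩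
  refine ⟨placeOf (k := k) (L := K) v, ?_⟩
  apply ClosedPoint.ext'
  change (placeOf (k := k) (L := K) v).O = x.ring
  have hAP : ∀ a : A, algebraMap A K a ∈ (placeOf (k := k) (L := K) v).O := fun a =>
    placeOf_reg v a
  apply eq_of_cent_eq _ _ hAP hAx (O_ne_top _) x.ne_top
  ext a
  have h1 : a ∈ cent (placeOf (k := k) (L := K) v).O hAP ↔
      (placeOf (k := k) (L := K) v).red (algebraMap A K a) = 0 := by
    rw [Place.red_of_reg _ (hAP a)]
    exact (IsLocalRing.residue_eq_zero_iff _).symm
  rw [h1, placeOf_red_eq_zero]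

theorem toCP_deg (P : Place k K) : (toCP P).deg = P.deg := by
  have h : (toCP P).constHom = P.constHom := by
    ext c
    change IsLocalRing.residue P.O _ = P.red (algebraMap k K c)
    rw [Place.red_of_reg _ (P.reg_const c)]
    rfl
  change @Module.finrank k P.RF _ _ (toCP P).constHom.toAlgebra.toModule =
    @Module.finrank k P.RF _ _ P.constHom.toAlgebra.toModule
  rw [h]
  rfl

theorem bridge [Finite k] (h : IsCurve k K) : IsFF k K ∧ ∃ e : Place k K ≃ ClosedPoint k K,
    ∀ P : Place k K, (e P).ring = P.O ∧ (e P).deg = P.deg :=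
  ⟨isFF_of_isCurve h, Equiv.ofBijective toCP ⟨toCP_inj, toCP_surj h⟩,
    fun P => ⟨rfl, toCP_deg P⟩⟩

end Pool.Agent.H991R3.ZPBridge
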