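import Pool.Agent.H680R3.ZP.Stmts
import Pool.Agent.H991R3.ZPBridge0

/-!
Task BR (`TaskBridge`) of the ZP-PROJECT of helper680. (helper991)
-/

set_option autoImplicit false

namespace Pool.Agent.H991R3.ZPBridge

theorem taskBridge : H680ZP.TaskBridge := by
  intro k K _ _ _ _ h
  exact bridge h

end Pool.Agent.H991R3.ZPBridge
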